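import Mathlib

/-!
# The combinatorial core of the first fundamental theorem for the orthogonal Lie algebra
(stable range), over any field, in an orthogonal basis.
-/

open Finset

namespace Pool.Agent.W417.K3.Fft

section core

variable {F : Type*} [Field F] {n k : ℕ}

/-- `K` with the positions `p`, `j` replaced by `b` -/
def up2 (K : Fin k → Fin n) (p j : Fin k) (b : Fin n) : Fin k → Fin n :=
  fun i => if i = p ∨ i = j then b else K i

/-- the relation given by the Lie algebra -/
def Rel (d : Fin n → F) (S : Finset (Fin k)) (c : (Fin k → Fin n) → F) : Prop :=
  ∀ a b : Fin n, a ≠ b → ∀ J : Fin k → Fin n,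
    ∑ j ∈ S with J j = a, d a * c (Function.update J j b) =
      ∑ j ∈ S with J j = b, d b * c (Function.update J j a)

/-- dependence on the coordinates in `S` only -/
def Dep (S : Finset (Fin k)) (c : (Fin k → Fin n) → F) : Prop :=
  ∀ J J' : Fin k → Fin n, (∀ j ∈ S, J j = J' j) → c J = c J'

/-- the diagonal matrix -/
def DD (d : Fin n → F) (a b : Fin n) : F := if a = b then d a else 0

/-- the generators -/
def Gens (d : Fin n → F) (S : Finset (Fin k)) : Set ((Fin k → Fin n) → F) :=
  {s | ∃ σ : Fin k → Fin k, (∀ j, σ (σ j) = j) ∧ (∀ j ∈ S, σ j ≠ j) ∧ (∀ j ∉ S, σ j = j) ∧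
    ∀ I, s I = ∏ j with j < σ j, DD d (I j) (I (σ j))}

theorem unused (T : Finset (Fin n)) (hT : T.card < n) : ∃ b, b ∉ T := by
  by_contra h
  push Not at h
  have : T = univ := by
    ext x
    simp [h x]
  rw [this, Finset.card_univ, Fintype.card_fin] at hT
  exact lt_irrefl _ hT

/-- the basic relation -/
theorem star (d : Fin n → F) (S : Finset (Fin k)) (c : (Fin k → Fin n) → F) (hr : Rel d S c)
    (p : Fin k) (hp : p ∈ S) (I : Fin k → Fin n) (b : Fin n) (hb : ∀ j ∈ S, I j ≠ b) :
    d b * c I = ∑ j ∈ S.erase p with I j = I p, d (I p) * c (up2 I p j b) := by
  have h := hr (I p) b (hb p hp) (Function.update I p b)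
  have h1 : (S.filter fun j => (Function.update I p b) j = b) = {p} := by
    ext j
    simp only [mem_filter, mem_singleton]
    constructor
    · rintro ⟨hj, hj'⟩
      by_contra hjp
      rw [Function.update_of_ne hjp] at hj'
      exact hb j hj hj'
    · rintro rfl
      exact ⟨hp, Function.update_self ..⟩
  have h2 : (S.filter fun j => (Function.update I p b) j = I p) =
      (S.erase p).filter fun j => I j = I p := by
    ext j
    simp only [mem_filter, mem_erase]
    by_cases hjp : j = p
    · subst hjp
      simp [(hb j hp).symm]
    · rw [Function.update_of_ne hjp]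
      simp [hjp]
  rw [h1, h2, sum_singleton, Function.update_idem, Function.update_eq_self] at h
  rw [← h]
  refine sum_congr rfl fun j hj => ?_
  congr 2
  rw [mem_filter, mem_erase] at hj
  funext i
  simp only [up2]
  by_cases hij : i = j
  · subst hij
    simp
  · rw [Function.update_of_ne hij]
    by_cases hip : i = p
    · subst hip
      simp
    · rw [Function.update_of_ne hip]
      simp [hij, hip]

theorem indep (d : Fin n → F) (hd : ∀ a, d a ≠ 0) (S : Finset (Fin k)) (c : (Fin k → Fin n) → F)
    (hr : Rel d S c)
    (p j : Fin k) (hp : p ∈ S) (hj : j ∈ S) (hpj : j ≠ p) (K : Fin k → Fin n) (a b : Fin n)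
    (ha : ∀ i ∈ (S.erase p).erase j, K i ≠ a) (hb : ∀ i ∈ (S.erase p).erase j, K i ≠ b) :
    c (up2 K p j a) / d a = c (up2 K p j b) / d b := by
  by_cases hab : a = b
  · rw [hab]
  have h := star d S c hr p hp (up2 K p j a) b (by
    intro i hi
    simp only [up2]
    split_ifs with h
    · exact hab
    · push Not at h
      exact hb i (mem_erase.mpr ⟨h.2, mem_erase.mpr ⟨h.1, hi⟩⟩))
  have h1 : (up2 K p j a) p = a := by simp [up2]
  rw [h1] at h
  have h2 : ((S.erase p).filter fun i => (up2 K p j a) i = a) = {j} := by
    ext i
    rw [mem_filter, mem_singleton, mem_erase]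
    simp only [up2]
    constructor
    · rintro ⟨⟨hip, hi⟩, h⟩
      by_contra hij
      rw [if_neg (by push Not; exact ⟨hip, hij⟩)] at h
      exact ha i (mem_erase.mpr ⟨hij, mem_erase.mpr ⟨hip, hi⟩⟩) h
    · rintro rfl
      exact ⟨⟨hpj, hj⟩, by simp⟩
  have h3 : up2 (up2 K p j a) p j b = up2 K p j b := by
    funext i
    simp only [up2]
    split_ifs <;> rfl
  rw [h2, sum_singleton, h3] at h
  rw [div_eq_div_iff (hd a) (hd b)]
  linear_combination h

theorem key (d : Fin n → F) (hd : ∀ a, d a ≠ 0) :
    ∀ (S : Finset (Fin k)), S.card < n → ∀ c : (Fin k → Fin n) → F, Dep S c → Rel d S c →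
      c ∈ Submodule.span F (Gens d S) := by
  intro S
  induction S using Finset.strongInduction with
  | H S IH =>
    intro hS c hdep hrel
    rcases S.eq_empty_or_nonempty with rfl | hne
    · have hn : 0 < n := by simpa using hS
      have h1 : c = c (fun _ => ⟨0, hn⟩) • (fun _ => (1 : F)) := by
        funext J
        simp only [Pi.smul_apply, smul_eq_mul, mul_one]
        exact hdep _ _ (by simp)
      rw [h1]
      refine Submodule.smul_mem _ _ (Submodule.subset_span ⟨id, by simp, by simp, by simp, ?_⟩)
      intro I
      simp
    · obtain ⟨p, hp, hmin⟩ := S.exists_min_image id hne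
      simp only [id] at hmin
      -- the coefficient functions
      have hcard : ∀ j ∈ S.erase p, ((S.erase p).erase j).card + 2 = S.card := by
        intro j hj
        rw [card_erase_of_mem hj, card_erase_of_mem hp]
        have : 0 < (S.erase p).card := card_pos.mpr ⟨j, hj⟩
        rw [card_erase_of_mem hp] at this
        omega
      have hβ : ∀ (j : Fin k) (K : Fin k → Fin n), ∃ b, j ∈ S.erase p →
          ∀ i ∈ (S.erase p).erase j, K i ≠ b := by
        intro j K
        by_cases hj : j ∈ S.erase p
        · obtain ⟨b, hb⟩ := unused (((S.erase p).erase j).image K)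
            (lt_of_le_of_lt card_image_le (by have := hcard j hj; omega))
          exact ⟨b, fun _ i hi h => hb (mem_image.mpr ⟨i, hi, h⟩)⟩
        · exact ⟨K p, fun h => absurd h hj⟩
      choose β hβ using hβ
      let cc : Fin k → (Fin k → Fin n) → F := fun j K => c (up2 K p j (β j K)) / d (β j K)
      have hcc : ∀ j ∈ S.erase p, ∀ (K : Fin k → Fin n) (b : Fin n),
          (∀ i ∈ (S.erase p).erase j, K i ≠ b) → cc j K = c (up2 K p j b) / d b := by
        intro j hj K b hb
        exact indep d hd S c hrel p j hp (mem_of_mem_erase hj) (ne_of_mem_erase hj) K _ _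
          (hβ j K hj) hb
      have hsum : c = ∑ j ∈ S.erase p, fun I => DD d (I p) (I j) * cc j I := by
        funext I
        rw [Finset.sum_apply]
        obtain ⟨b, hb⟩ := unused (S.image I) (lt_of_le_of_lt card_image_le hS)
        have hb' : ∀ j ∈ S, I j ≠ b := fun j hj h => hb (mem_image.mpr ⟨j, hj, h⟩)
        have h := star d S c hrel p hp I b hb'
        have h1 : c I = (∑ j ∈ S.erase p with I j = I p, d (I p) * c (up2 I p j b)) / d b := by
          rw [← h, mul_div_cancel_left₀ _ (hd b)]
        rw [h1, sum_filter, sum_div]
        refine sum_congr rfl fun j hj => ?_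
        rw [hcc j hj I b fun i hi => hb' i (mem_of_mem_erase (mem_of_mem_erase hi)), DD]
        by_cases hij : I j = I p
        · rw [if_pos hij, if_pos hij.symm, mul_div_assoc]
        · rw [if_neg hij, if_neg (Ne.symm hij), zero_div, zero_mul]
      rw [hsum]
      refine Submodule.sum_mem _ fun j hj => ?_
      have hjS : j ∈ S := mem_of_mem_erase hj
      have hjp : j ≠ p := ne_of_mem_erase hj
      have hpj : p < j := lt_of_le_of_ne (hmin j hjS) (Ne.symm hjp)
      have hss : (S.erase p).erase j ⊂ S :=
        (erase_ssubset hj).trans (erase_ssubset hp)
      have hIH := IH ((S.erase p).erase j) hss (lt_of_le_of_lt (card_le_card hss.1) hS) (cc j) (by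
        intro J J' hJ
        rw [hcc j hj J' (β j J) (fun i hi => by rw [← hJ i hi]; exact hβ j J hj i hi)]
        simp only [cc]
        congr 1
        refine hdep _ _ fun i hi => ?_
        simp only [up2]
        split_ifs with h
        · rfl
        · push Not at h
          exact hJ i (mem_erase.mpr ⟨h.2, mem_erase.mpr ⟨h.1, hi⟩⟩)) (by
        intro a b hab J
        obtain ⟨b', hb'⟩ := unused ((((S.erase p).erase j).image J) ∪ {a, b}) (by
          refine lt_of_le_of_lt (card_union_le _ _) ?_
          have h1 : (((S.erase p).erase j).image J).card ≤ ((S.erase p).erase j).card :=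
            card_image_le
          have h2 : ({a, b} : Finset (Fin n)).card ≤ 2 := card_le_two
          have := hcard j hj
          omega)
        simp only [mem_union, mem_image, mem_insert, mem_singleton, not_or, not_exists,
          not_and] at hb'
        obtain ⟨hb1, hb2, hb3⟩ := hb'
        have hup : ∀ (i : Fin k) (x : Fin n), i ∈ (S.erase p).erase j → x ≠ b' →
            cc j (Function.update J i x) = c (Function.update (up2 J p j b') i x) / d b' := by
          intro i x hi hx
          rw [hcc j hj _ b']
          · congr 2
            funext l
            simp only [up2]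
            rw [mem_erase, mem_erase] at hi
            by_cases hli : l = i
            · subst hli
              simp [hi.1, hi.2.1]
            · rw [Function.update_of_ne hli, Function.update_of_ne hli]
              rfl
          · intro l hl
            by_cases hli : l = i
            · subst hli
              rw [Function.update_self]
              exact hx
            · rw [Function.update_of_ne hli]
              exact hb1 l hl
        have hfil : ∀ x : Fin n, x ≠ b' → (S.filter fun i => (up2 J p j b') i = x) =
            ((S.erase p).erase j).filter fun i => J i = x := by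
          intro x hx
          ext i
          rw [mem_filter, mem_filter, mem_erase, mem_erase]
          simp only [up2]
          by_cases hip : i = p
          · subst hip
            simp [hx.symm]
          · by_cases hij : i = j
            · subst hij
              simp [hx.symm]
            · simp [hip, hij]
        have h := hrel a b hab (up2 J p j b')
        rw [hfil a (Ne.symm hb2), hfil b (Ne.symm hb3)] at h
        have h1 : ∑ i ∈ (S.erase p).erase j with J i = a, d a * cc j (Function.update J i b) =
            (∑ i ∈ (S.erase p).erase j with J i = a,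
              d a * c (Function.update (up2 J p j b') i b)) / d b' := by
          rw [sum_div]
          refine sum_congr rfl fun i hi => ?_
          rw [hup i b (mem_filter.mp hi).1 (Ne.symm hb3), mul_div_assoc]
        have h2 : ∑ i ∈ (S.erase p).erase j with J i = b, d b * cc j (Function.update J i a) =
            (∑ i ∈ (S.erase p).erase j with J i = b,
              d b * c (Function.update (up2 J p j b') i a)) / d b' := by
          rw [sum_div]
          refine sum_congr rfl fun i hi => ?_
          rw [hup i a (mem_filter.mp hi).1 (Ne.symm hb2), mul_div_assoc]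
        rw [h1, h2, h])
      -- multiply by the form
      let μ : ((Fin k → Fin n) → F) →ₗ[F] ((Fin k → Fin n) → F) :=
        LinearMap.mulLeft F (fun I => DD d (I p) (I j))
      have hμ : (fun I => DD d (I p) (I j) * cc j I) = μ (cc j) := rfl
      rw [hμ]
      have h3 : μ (cc j) ∈ (Submodule.span F (Gens d ((S.erase p).erase j))).map μ :=
        Submodule.mem_map_of_mem hIH
      rw [Submodule.map_span] at h3
      refine Submodule.span_mono ?_ h3
      rintro _ ⟨s, ⟨σ, hσ1, hσ2, hσ3, hσ4⟩, rfl⟩
      have hσp : σ p = p := hσ3 p (by simp)
      have hσj : σ j = j := hσ3 j (by simp)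
      have hne1 : ∀ i, i ≠ p → σ i ≠ p := by
        intro i hi h
        have := hσ1 i
        rw [h, hσp] at this
        exact hi this.symm
      have hne2 : ∀ i, i ≠ j → σ i ≠ j := by
        intro i hi h
        have := hσ1 i
        rw [h, hσj] at this
        exact hi this.symm
      refine ⟨fun i => if i = p then j else if i = j then p else σ i, ?_, ?_, ?_, ?_⟩
      · intro i
        by_cases hip : i = p
        · subst hip
          simp [hjp]
        · by_cases hij : i = j
          · subst hij
            simp [hip]
          · simp [hip, hij, hne1 i hip, hne2 i hij, hσ1 i]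
      · intro i hi
        by_cases hip : i = p
        · subst hip
          simp [hjp]
        · by_cases hij : i = j
          · subst hij
            simp [hip, Ne.symm hip]
          · simp only [hip, hij, if_false]
            exact hσ2 i (mem_erase.mpr ⟨hij, mem_erase.mpr ⟨hip, hi⟩⟩)
      · intro i hi
        have hip : i ≠ p := fun h => hi (h ▸ hp)
        have hij : i ≠ j := fun h => hi (h ▸ hjS)
        simp only [hip, hij, if_false]
        exact hσ3 i fun h => hi (mem_of_mem_erase (mem_of_mem_erase h))
      · intro I
        have hμs : μ s I = DD d (I p) (I j) * s I := rfl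
        rw [hμs, hσ4 I]
        have hf : (univ.filter fun i : Fin k =>
            i < (if i = p then j else if i = j then p else σ i)) =
            insert p (univ.filter fun i => i < σ i) := by
          ext i
          simp only [mem_filter, mem_univ, true_and, mem_insert]
          by_cases hip : i = p
          · subst hip
            simp [hpj]
          · by_cases hij : i = j
            · subst hij
              simp [hip, hσj, hpj.le]
            · simp [hip, hij]
        rw [hf, prod_insert (by simp [hσp])]
        congr 1
        · simp
        · refine prod_congr rfl fun i hi => ?_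
          rw [mem_filter] at hi
          have hip : i ≠ p := by
            rintro rfl
            rw [hσp] at hi
            exact lt_irrefl _ hi.2
          have hij : i ≠ j := by
            rintro rfl
            rw [hσj] at hi
            exact lt_irrefl _ hi.2
          simp [hip, hij]

end core

end Pool.Agent.W417.K3.Fft
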