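import Pool.Agent.W544.K3.Defs
import Pool.Agent.W417.K3.FftA

/-!
# First fundamental theorem for the orthogonal Lie algebra in the stable range: assembly
-/

open Module Finset

namespace Pool.Agent.W417.K3.Fft

open Pool.Agent.W544.K3

variable {r k : ℕ}

/-- the form attached to an involution -/
theorem prod_update {V : Type*} (b : V → V → ℚ) (σ : Fin k → Fin k) (hσ : ∀ j, σ (σ j) = j)
    (hσ' : ∀ j, σ j ≠ j) (m : Fin k → V) (i : Fin k) :
    ∃ (w : V) (C : ℚ) (l : Bool), ∀ x : V,
      ∏ j with j < σ j, b (Function.update m i x j) (Function.update m i x (σ j)) =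
        (if l then b x w else b w x) * C := by
  rcases lt_or_gt_of_ne (hσ' i) with h | h
  · -- `σ i < i`
    refine ⟨m (σ i), ∏ j ∈ (univ.filter fun j => j < σ j).erase (σ i), b (m j) (m (σ j)), false, ?_⟩
    intro x
    have hmem : σ i ∈ univ.filter fun j => j < σ j := by simp [hσ i, h]
    rw [← mul_prod_erase _ _ hmem, hσ i, Function.update_self, Function.update_of_ne (hσ' i)]
    simp only [Bool.false_eq_true, if_false]
    congr 1
    refine prod_congr rfl fun j hj => ?_
    rw [mem_erase, mem_filter] at hj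
    have h1 : j ≠ i := by
      rintro rfl
      exact lt_asymm h hj.2.2
    have h2 : σ j ≠ i := by
      intro h'
      apply hj.1
      rw [← h', hσ]
    rw [Function.update_of_ne h1, Function.update_of_ne h2]
  · refine ⟨m (σ i), ∏ j ∈ (univ.filter fun j => j < σ j).erase i, b (m j) (m (σ j)), true, ?_⟩
    intro x
    have hmem : i ∈ univ.filter fun j => j < σ j := by simpa using h
    rw [← mul_prod_erase _ _ hmem, Function.update_self, Function.update_of_ne (hσ' i)]
    simp only [if_true]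
    congr 1
    refine prod_congr rfl fun j hj => ?_
    rw [mem_erase, mem_filter] at hj
    have h2 : σ j ≠ i := by
      intro h'
      have h3 := hσ j
      rw [h'] at h3
      rw [← h3] at hj
      rw [hσ] at hj
      exact lt_asymm h hj.2.2
    rw [Function.update_of_ne hj.1, Function.update_of_ne h2]

/-- the multilinear form of a pairing of the slots -/
def Tσ {V : Type*} [AddCommGroup V] [Module ℚ V] (b : V →ₗ[ℚ] V →ₗ[ℚ] ℚ)
    (σ : Fin k → Fin k) (hσ : ∀ j, σ (σ j) = j)
    (hσ' : ∀ j, σ j ≠ j) : MultilinearMap ℚ (fun _ : Fin k => V) ℚ where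
  toFun v := ∏ j with j < σ j, b (v j) (v (σ j))
  map_update_add' := by
    intro inst m i x y
    have hinst : inst = instDecidableEqFin k := Subsingleton.elim _ _
    subst hinst
    obtain ⟨w, C, l, h⟩ := prod_update (fun u v => b u v) σ hσ hσ' m i
    rw [h, h, h]
    cases l <;> simp [add_mul]
  map_update_smul' := by
    intro inst m i c x
    have hinst : inst = instDecidableEqFin k := Subsingleton.elim _ _
    subst hinst
    obtain ⟨w, C, l, h⟩ := prod_update (fun u v => b u v) σ hσ hσ' m i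
    rw [h, h]
    cases l <;> simp [mul_assoc]

theorem Tσ_apply {V : Type*} [AddCommGroup V] [Module ℚ V] (b : V →ₗ[ℚ] V →ₗ[ℚ] ℚ)
    (σ : Fin k → Fin k) (hσ : ∀ j, σ (σ j) = j) (hσ' : ∀ j, σ j ≠ j) (v : Fin k → V) :
    Tσ b σ hσ hσ' v = ∏ j with j < σ j, b (v j) (v (σ j)) := rfl

/-- the rational multilinear form -/
noncomputable def formQ (t : (Fin k → Fin r) → ℚ) :
    MultilinearMap ℚ (fun _ : Fin k => (Fin r → ℚ)) ℚ :=
  ∑ I : Fin k → Fin r, (t I) • (MultilinearMap.mkPiAlgebra ℚ (Fin k) ℚ).compLinearMap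
    (fun j => LinearMap.proj (I j))

theorem formQ_apply (t : (Fin k → Fin r) → ℚ) (v : Fin k → Fin r → ℚ) :
    formQ t v = ∑ I : Fin k → Fin r, (t I) * ∏ j, v j (I j) := by
  simp [formQ]

theorem formQ_single (t : (Fin k → Fin r) → ℚ) (I : Fin k → Fin r) :
    formQ t (fun j => Pi.single (I j) 1) = t I := by
  rw [formQ_apply, Finset.sum_eq_single I]
  · simp
  · intro J _ hJ
    obtain ⟨j, hj⟩ := Function.ne_iff.mp hJ
    rw [Finset.prod_eq_zero (mem_univ j), mul_zero]
    exact Pi.single_eq_of_ne hj 1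
  · simp

/-- real version of a rational vector -/
def cv (v : Fin r → ℚ) : Fin r → ℝ := fun i => (v i : ℝ)

theorem formR_cv (t : (Fin k → Fin r) → ℚ) (v : Fin k → Fin r → ℚ) :
    formR t (fun j => cv (v j)) = ((formQ t v : ℚ) : ℝ) := by
  rw [formR_apply, formQ_apply]
  push_cast
  rfl

/-- the rational bilinear form -/
noncomputable def BQ (B : Matrix (Fin r) (Fin r) ℚ) : (Fin r → ℚ) →ₗ[ℚ] (Fin r → ℚ) →ₗ[ℚ] ℚ :=
  Matrix.toBilin' B

theorem bilR_cv (B : Matrix (Fin r) (Fin r) ℚ) (u v : Fin r → ℚ) :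
    bilR B (cv u) (cv v) = ((BQ B u v : ℚ) : ℝ) := by
  rw [bilR_apply, BQ, Matrix.toBilin'_apply]
  push_cast
  rfl

theorem bilR_symm (B : Matrix (Fin r) (Fin r) ℚ) (hB : ∀ i j, B i j = B j i) (u v : Fin r → ℝ) :
    bilR B u v = bilR B v u := by
  rw [bilR_apply, bilR_apply, Finset.sum_comm]
  refine sum_congr rfl fun i _ => sum_congr rfl fun j _ => ?_
  rw [hB j i]
  ring

theorem BQ_symm (B : Matrix (Fin r) (Fin r) ℚ) (hB : ∀ i j, B i j = B j i) (u v : Fin r → ℚ) :
    BQ B u v = BQ B v u := by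
  rw [BQ, Matrix.toBilin'_apply, Matrix.toBilin'_apply, Finset.sum_comm]
  refine sum_congr rfl fun i _ => sum_congr rfl fun j _ => ?_
  rw [hB j i]
  ring

theorem wedge_skew {U : Type} [AddCommGroup U] [Module ℝ U] (B : U →ₗ[ℝ] U →ₗ[ℝ] ℝ)
    (hB : ∀ u v, B u v = B v u) (u v : U) : Skew B (wedge B u v) := by
  intro x y
  rw [wedge_apply, wedge_apply]
  simp only [map_sub, map_smul, LinearMap.sub_apply, LinearMap.smul_apply, smul_eq_mul]
  rw [hB x v, hB x u]
  ring

theorem exists_basis (B : Matrix (Fin r) (Fin r) ℚ) (hB : ∀ i j, B i j = B j i)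
    (hdet : B.det ≠ 0) :
    ∃ q : Basis (Fin r) ℚ (Fin r → ℚ), (∀ i j, i ≠ j → BQ B (q i) (q j) = 0) ∧
      ∀ i, BQ B (q i) (q i) ≠ 0 := by
  have : Invertible (2 : ℚ) := invertibleOfNonzero two_ne_zero
  have hs : LinearMap.IsSymm (BQ B) := ⟨fun u v => by
    rw [RingHom.id_apply]
    exact BQ_symm B hB u v⟩
  obtain ⟨q, hq⟩ := LinearMap.BilinForm.exists_orthogonal_basis (B := BQ B) hs
  have hnd : (BQ B).SeparatingLeft :=
    (LinearMap.BilinForm.nondegenerate_toBilin'_of_det_ne_zero' B hdet).1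
  have hn := hq.not_isOrtho_basis_self_of_separatingLeft hnd
  have hr : finrank ℚ (Fin r → ℚ) = r := Module.finrank_fin_fun ℚ
  refine ⟨q.reindex (finCongr hr), ?_, ?_⟩
  · intro i j hij
    rw [Basis.reindex_apply, Basis.reindex_apply]
    exact LinearMap.isOrthoᵢ_def.mp hq _ _ fun h => hij ((finCongr hr).symm.injective h)
  · intro i
    rw [Basis.reindex_apply]
    exact hn _

theorem relation (B : Matrix (Fin r) (Fin r) ℚ) (hB : ∀ i j, B i j = B j i)
    (t : (Fin k → Fin r) → ℚ)
    (ht : ∀ y : End ℝ (Fin r → ℝ), Skew (bilR B) y → Kills y (formR t))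
    (u v : Fin r → ℚ) (m : Fin k → Fin r → ℚ) :
    ∑ j, BQ B u (m j) * formQ t (Function.update m j v) =
      ∑ j, BQ B v (m j) * formQ t (Function.update m j u) := by
  have h := ht (wedge (bilR B) (cv u) (cv v)) (wedge_skew _ (bilR_symm B hB) _ _)
    (fun j => cv (m j))
  have h1 : ∀ j, formR t (Function.update (fun j => cv (m j)) j
      (wedge (bilR B) (cv u) (cv v) (cv (m j)))) =
      ((BQ B u (m j) * formQ t (Function.update m j v) -
        BQ B v (m j) * formQ t (Function.update m j u) : ℚ) : ℝ) := by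
    intro j
    rw [wedge_apply, bilR_cv, bilR_cv, MultilinearMap.map_update_sub,
      MultilinearMap.map_update_smul, MultilinearMap.map_update_smul]
    have h2 : ∀ w : Fin r → ℚ, Function.update (fun j => cv (m j)) j (cv w) =
        fun i => cv (Function.update m j w i) := by
      intro w
      exact (Function.comp_update cv m j w).symm
    rw [h2, h2, formR_cv, formR_cv]
    push_cast
    rfl
  simp only [h1] at h
  rw [← Rat.cast_sum] at h
  have h3 : ∑ j, (BQ B u (m j) * formQ t (Function.update m j v) -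
        BQ B v (m j) * formQ t (Function.update m j u)) = 0 := by exact_mod_cast h
  rw [sum_sub_distrib] at h3
  exact sub_eq_zero.mp h3

theorem fft : S_fft := by
  intro r k hk B hB hdet t ht
  obtain ⟨q, hq1, hq2⟩ := exists_basis B hB hdet
  -- the matrix of the form in the basis
  obtain ⟨d, hd, hD⟩ : ∃ d : Fin r → ℚ, (∀ a, d a ≠ 0) ∧
      ∀ a b, BQ B (q a) (q b) = DD d a b := by
    refine ⟨fun a => BQ B (q a) (q a), hq2, fun a b => ?_⟩
    rw [DD]
    split_ifs with h
    · rw [h]
    · exact hq1 a b h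
  have hkey := key (k := k) d hd univ (by simpa using hk)
    (fun J => formQ t (fun j => q (J j)))
    (fun J J' h => by
      have : J = J' := funext fun j => h j (mem_univ _)
      rw [this]) (by
      intro a b hab J
      have h := relation B hB t ht (q a) (q b) (fun j => q (J j))
      have h2 : ∀ (j : Fin k) (x : Fin r), Function.update (fun j => q (J j)) j (q x) =
          fun i => q (Function.update J j x i) := by
        intro j x
        exact (Function.comp_update q J j x).symm
      simp only [h2, hD, DD] at h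
      rw [sum_filter, sum_filter]
      refine Eq.trans ?_ (h.trans ?_)
      · refine sum_congr rfl fun j _ => ?_
        by_cases hj : J j = a
        · rw [if_pos hj, if_pos hj.symm]
        · rw [if_neg hj, if_neg (Ne.symm hj), zero_mul]
      · refine sum_congr rfl fun j _ => ?_
        by_cases hj : J j = b
        · rw [if_pos hj, if_pos hj.symm]
        · rw [if_neg hj, if_neg (Ne.symm hj), zero_mul])
  -- evaluation on the basis
  let evq : MultilinearMap ℚ (fun _ : Fin k => (Fin r → ℚ)) ℚ →ₗ[ℚ] ((Fin k → Fin r) → ℚ) :=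
    { toFun := fun T J => T (fun j => q (J j))
      map_add' := fun _ _ => rfl
      map_smul' := fun _ _ => rfl }
  have hinj : Function.Injective evq := by
    intro T T' h
    exact Basis.ext_multilinear (fun _ => q) fun J => congrFun h J
  let eve : MultilinearMap ℚ (fun _ : Fin k => (Fin r → ℚ)) ℚ →ₗ[ℚ] ((Fin k → Fin r) → ℚ) :=
    { toFun := fun T J => T (fun j => Pi.single (J j) 1)
      map_add' := fun _ _ => rfl
      map_smul' := fun _ _ => rfl }
  let GG : Set (MultilinearMap ℚ (fun _ : Fin k => (Fin r → ℚ)) ℚ) :=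
    {T | ∃ (σ : Fin k → Fin k) (h1 : ∀ j, σ (σ j) = j) (h2 : ∀ j, σ j ≠ j), T = Tσ (BQ B) σ h1 h2}
  have h1 : evq (formQ t) ∈ (Submodule.span ℚ GG).map evq := by
    rw [Submodule.map_span]
    refine Submodule.span_mono ?_ hkey
    rintro s ⟨σ, hσ1, hσ2, -, hσ4⟩
    refine ⟨Tσ (BQ B) σ hσ1 (fun j => hσ2 j (mem_univ _)), ⟨σ, hσ1, _, rfl⟩, ?_⟩
    funext I
    rw [hσ4 I]
    refine (Tσ_apply (BQ B) σ hσ1 (fun j => hσ2 j (mem_univ _)) _).trans ?_
    refine prod_congr rfl fun j _ => ?_
    exact hD _ _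
  obtain ⟨T, hT, hT'⟩ := h1
  have h2 : formQ t ∈ Submodule.span ℚ GG := by
    rw [← hinj hT']
    exact hT
  have h3 : eve (formQ t) ∈ (Submodule.span ℚ GG).map eve := Submodule.mem_map_of_mem h2
  have h4 : eve (formQ t) = t := by
    funext I
    exact formQ_single t I
  rw [h4, Submodule.map_span] at h3
  refine Submodule.span_mono ?_ h3
  rintro _ ⟨_, ⟨σ, hσ1, hσ2, rfl⟩, rfl⟩
  refine ⟨σ, hσ1, hσ2, fun I => ?_⟩
  refine (Tσ_apply (BQ B) σ hσ1 hσ2 _).trans ?_
  refine prod_congr rfl fun j _ => ?_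
  exact Matrix.toBilin'_single B _ _

end Pool.Agent.W417.K3.Fft
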