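import Mathlib

/-!
# The combinatorial core of the first fundamental theorem for products of orthogonal Lie algebras
(stable range), over any field, in an orthogonal basis.
-/

open Finset

namespace Pool.Agent.W417.K3.Fft2

section core

variable {F : Type*} [Field F] {n N k : ℕ}

/-- `K` with the positions `p`, `j` replaced by `b` -/
def up2 (K : Fin k → Fin n) (p j : Fin k) (b : Fin n) : Fin k → Fin n :=
  fun i => if i = p ∨ i = j then b else K i

/-- the relation given by the Lie algebra -/
def Rel (cl : Fin n → Fin N) (d : Fin n → F) (S : Finset (Fin k)) (c : (Fin k → Fin n) → F) :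
    Prop :=
  ∀ a b : Fin n, a ≠ b → cl a = cl b → ∀ J : Fin k → Fin n,
    ∑ j ∈ S with J j = a, d a * c (Function.update J j b) =
      ∑ j ∈ S with J j = b, d b * c (Function.update J j a)

/-- dependence on the coordinates in `S` only -/
def Dep (S : Finset (Fin k)) (c : (Fin k → Fin n) → F) : Prop :=
  ∀ J J' : Fin k → Fin n, (∀ j ∈ S, J j = J' j) → c J = c J'

/-- the diagonal matrix of a block -/
def DB (cl : Fin n → Fin N) (d : Fin n → F) (i : Fin N) (a b : Fin n) : F :=
  if a = b ∧ cl a = i then d a else 0

/-- the generators -/
def Gens (cl : Fin n → Fin N) (d : Fin n → F) (S : Finset (Fin k)) : Set ((Fin k → Fin n) → F) :=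
  {s | ∃ (σ : Fin k → Fin k) (κ : Fin k → Fin N), (∀ j, σ (σ j) = j) ∧ (∀ j ∈ S, σ j ≠ j) ∧
    (∀ j ∉ S, σ j = j) ∧ ∀ I, s I = ∏ j with j < σ j, DB cl d (κ j) (I j) (I (σ j))}

theorem unused (cl : Fin n → Fin N) (i : Fin N) (T : Finset (Fin n))
    (hT : (T.filter fun a => cl a = i).card < (univ.filter fun a => cl a = i).card) :
    ∃ b, cl b = i ∧ b ∉ T := by
  by_contra h
  push Not at h
  have : (univ.filter fun a => cl a = i) ⊆ (T.filter fun a => cl a = i) := by
    intro x hx
    rw [mem_filter] at hx ⊢
    exact ⟨h x hx.2, hx.2⟩
  exact absurd (card_le_card this) (not_le.mpr hT)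

/-- the basic relation -/
theorem star (cl : Fin n → Fin N) (d : Fin n → F) (S : Finset (Fin k))
    (c : (Fin k → Fin n) → F) (hr : Rel cl d S c)
    (p : Fin k) (hp : p ∈ S) (I : Fin k → Fin n) (b : Fin n) (hb : ∀ j ∈ S, I j ≠ b)
    (hcl : cl (I p) = cl b) :
    d b * c I = ∑ j ∈ S.erase p with I j = I p, d (I p) * c (up2 I p j b) := by
  have h := hr (I p) b (hb p hp) hcl (Function.update I p b)
  have h1 : (S.filter fun j => (Function.update I p b) j = b) = {p} := by
    ext j
    simp only [mem_filter, mem_singleton]
    constructor
    · rintro ⟨hj, hj'⟩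
      by_contra hjp
      rw [Function.update_of_ne hjp] at hj'
      exact hb j hj hj'
    · rintro rfl
      exact ⟨hp, Function.update_self ..⟩
  have h2 : (S.filter fun j => (Function.update I p b) j = I p) =
      (S.erase p).filter fun j => I j = I p := by
    ext j
    simp only [mem_filter, mem_erase]
    by_cases hjp : j = p
    · subst hjp
      simp [(hb j hp).symm]
    · rw [Function.update_of_ne hjp]
      simp [hjp]
  rw [h1, h2, sum_singleton, Function.update_idem, Function.update_eq_self] at h
  rw [← h]
  refine sum_congr rfl fun j hj => ?_
  congr 2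
  rw [mem_filter, mem_erase] at hj
  funext i
  simp only [up2]
  by_cases hij : i = j
  · subst hij
    simp
  · rw [Function.update_of_ne hij]
    by_cases hip : i = p
    · subst hip
      simp
    · rw [Function.update_of_ne hip]
      simp [hij, hip]

theorem indep (cl : Fin n → Fin N) (d : Fin n → F) (hd : ∀ a, d a ≠ 0) (S : Finset (Fin k))
    (c : (Fin k → Fin n) → F) (hr : Rel cl d S c)
    (p j : Fin k) (hp : p ∈ S) (hj : j ∈ S) (hpj : j ≠ p) (K : Fin k → Fin n) (a b : Fin n)
    (hcl : cl a = cl b)
    (ha : ∀ i ∈ (S.erase p).erase j, K i ≠ a) (hb : ∀ i ∈ (S.erase p).erase j, K i ≠ b) :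
    c (up2 K p j a) / d a = c (up2 K p j b) / d b := by
  by_cases hab : a = b
  · rw [hab]
  have h1 : (up2 K p j a) p = a := by simp [up2]
  have h := star cl d S c hr p hp (up2 K p j a) b (by
    intro i hi
    simp only [up2]
    split_ifs with h
    · exact hab
    · push Not at h
      exact hb i (mem_erase.mpr ⟨h.2, mem_erase.mpr ⟨h.1, hi⟩⟩)) (by rw [h1]; exact hcl)
  rw [h1] at h
  have h2 : ((S.erase p).filter fun i => (up2 K p j a) i = a) = {j} := by
    ext i
    rw [mem_filter, mem_singleton, mem_erase]
    simp only [up2]
    constructor
    · rintro ⟨⟨hip, hi⟩, h⟩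
      by_contra hij
      rw [if_neg (by push Not; exact ⟨hip, hij⟩)] at h
      exact ha i (mem_erase.mpr ⟨hij, mem_erase.mpr ⟨hip, hi⟩⟩) h
    · rintro rfl
      exact ⟨⟨hpj, hj⟩, by simp⟩
  have h3 : up2 (up2 K p j a) p j b = up2 K p j b := by
    funext i
    simp only [up2]
    split_ifs <;> rfl
  rw [h2, sum_singleton, h3] at h
  rw [div_eq_div_iff (hd a) (hd b)]
  linear_combination h

theorem card_pat (cl : Fin n → Fin N) (f : Fin k → Fin N) (T : Finset (Fin k))
    (K : Fin k → Fin n) (hK : ∀ i ∈ T, cl (K i) = f i) (i : Fin N) :
    ((T.image K).filter fun a => cl a = i).card ≤ (T.filter fun j => f j = i).card := by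
  refine (card_le_card (?_ : _ ⊆ (T.filter fun j => f j = i).image K)).trans card_image_le
  intro x hx
  rw [mem_filter, mem_image] at hx
  obtain ⟨⟨j, hj, rfl⟩, hx⟩ := hx
  exact mem_image.mpr ⟨j, mem_filter.mpr ⟨hj, by rw [← hK j hj]; exact hx⟩, rfl⟩

theorem key (cl : Fin n → Fin N) (d : Fin n → F) (hd : ∀ a, d a ≠ 0) (f : Fin k → Fin N) :
    ∀ (S : Finset (Fin k)),
      (∀ j ∈ S, (S.filter fun l => f l = f j).card < (univ.filter fun a => cl a = f j).card) →
      ∀ c : (Fin k → Fin n) → F, Dep S c → Rel cl d S c →
      (∀ J, c J ≠ 0 → ∀ j ∈ S, cl (J j) = f j) →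
      c ∈ Submodule.span F (Gens cl d S) := by
  intro S
  induction S using Finset.strongInduction with
  | H S IH =>
    intro hS c hdep hrel hpat
    classical
    rcases S.eq_empty_or_nonempty with rfl | hne
    · rcases isEmpty_or_nonempty (Fin k → Fin n) with hem | ⟨⟨J0⟩⟩
      · have h1 : c = 0 := funext fun J => (hem.false J).elim
        rw [h1]
        exact Submodule.zero_mem _
      have h1 : c = c J0 • (fun _ => (1 : F)) := by
        funext J
        simp only [Pi.smul_apply, smul_eq_mul, mul_one]
        exact hdep _ _ (by simp)
      rw [h1]
      refine Submodule.smul_mem _ _ (Submodule.subset_span ⟨id, f, by simp,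
        by simp, by simp, ?_⟩)
      intro I
      simp
    · obtain ⟨p, hp, hmin⟩ := S.exists_min_image id hne
      simp only [id] at hmin
      -- positions of the block of `p`
      let Q : Finset (Fin k) := (S.erase p).filter fun j => f j = f p
      have hQ : ∀ j ∈ Q, j ∈ S ∧ j ≠ p ∧ f j = f p := by
        intro j hj
        rw [mem_filter] at hj
        exact ⟨mem_of_mem_erase hj.1, ne_of_mem_erase hj.1, hj.2⟩
      -- numbers
      have hcard : ∀ j ∈ Q, (((S.erase p).erase j).filter fun l => f l = f p).card + 2 =
          (S.filter fun l => f l = f p).card := by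
        intro j hj
        obtain ⟨hj1, hj2, hj3⟩ := hQ j hj
        have e1 : (((S.erase p).erase j).filter fun l => f l = f p) =
            ((S.filter fun l => f l = f p).erase p).erase j := by
          ext l
          simp only [mem_filter, mem_erase]
          tauto
        have hpm : p ∈ S.filter fun l => f l = f p := mem_filter.mpr ⟨hp, rfl⟩
        have hjm : j ∈ (S.filter fun l => f l = f p).erase p :=
          mem_erase.mpr ⟨hj2, mem_filter.mpr ⟨hj1, hj3⟩⟩
        rw [e1, card_erase_of_mem hjm, card_erase_of_mem hpm]
        have h1 : 0 < ((S.filter fun l => f l = f p).erase p).card := card_pos.mpr ⟨j, hjm⟩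
        rw [card_erase_of_mem hpm] at h1
        omega
      -- the coefficient functions
      let cc : Fin k → (Fin k → Fin n) → F := fun j K =>
        if h : ∃ b, cl b = f p ∧ ∀ i ∈ (S.erase p).erase j, K i ≠ b then
          c (up2 K p j h.choose) / d h.choose else 0
      have hcc : ∀ j ∈ Q, ∀ (K : Fin k → Fin n) (b : Fin n), cl b = f p →
          (∀ i ∈ (S.erase p).erase j, K i ≠ b) → cc j K = c (up2 K p j b) / d b := by
        intro j hj K b hbp hb
        obtain ⟨hj1, hj2, hj3⟩ := hQ j hj
        have h : ∃ b, cl b = f p ∧ ∀ i ∈ (S.erase p).erase j, K i ≠ b := ⟨b, hbp, hb⟩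
        simp only [cc]
        rw [dif_pos h]
        exact indep cl d hd S c hrel p j hp hj1 hj2 K _ _ (h.choose_spec.1.trans hbp.symm)
          h.choose_spec.2 hb
      have hcc0 : ∀ j ∈ Q, ∀ (K : Fin k → Fin n),
          (∃ i ∈ (S.erase p).erase j, cl (K i) ≠ f i) → cc j K = 0 := by
        rintro j hj K ⟨i, hi, hi'⟩
        simp only [cc]
        split_ifs with h
        · have h1 : c (up2 K p j h.choose) = 0 := by
            by_contra h2
            have h3 := hpat _ h2 i (mem_of_mem_erase (mem_of_mem_erase hi))
            have h4 : up2 K p j h.choose i = K i := by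
              rw [mem_erase, mem_erase] at hi
              simp [up2, hi.1, hi.2.1]
            rw [h4] at h3
            exact hi' h3
          rw [h1, zero_div]
        · rfl
      have hsum : c = ∑ j ∈ Q, fun I => DB cl d (f p) (I p) (I j) * cc j I := by
        funext I
        rw [Finset.sum_apply]
        by_cases hI : ∀ i ∈ S, cl (I i) = f i
        · obtain ⟨b, hbp, hb⟩ := unused cl (f p) (S.image I)
            (lt_of_le_of_lt (card_pat cl f S I hI (f p)) (hS p hp))
          have hb' : ∀ j ∈ S, I j ≠ b := fun j hj h => hb (mem_image.mpr ⟨j, hj, h⟩)
          have h := star cl d S c hrel p hp I b hb' (by rw [hI p hp, hbp])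
          have h1 : c I = (∑ j ∈ S.erase p with I j = I p, d (I p) * c (up2 I p j b)) / d b := by
            rw [← h, mul_div_cancel_left₀ _ (hd b)]
          have h2 : ((S.erase p).filter fun j => I j = I p) = Q.filter fun j => I j = I p := by
            ext j
            simp only [Q, mem_filter]
            constructor
            · rintro ⟨hj, hj'⟩
              refine ⟨⟨hj, ?_⟩, hj'⟩
              rw [← hI j (mem_of_mem_erase hj), hj', hI p hp]
            · rintro ⟨⟨hj, -⟩, hj'⟩
              exact ⟨hj, hj'⟩
          rw [h1, h2, sum_filter, sum_div]
          refine sum_congr rfl fun j hj => ?_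
          rw [hcc j hj I b hbp fun i hi => hb' i (mem_of_mem_erase (mem_of_mem_erase hi)), DB]
          by_cases hij : I j = I p
          · rw [if_pos hij, if_pos ⟨hij.symm, hI p hp⟩, mul_div_assoc]
          · rw [if_neg hij, if_neg (fun h => hij h.1.symm), zero_div, zero_mul]
        · have h0 : c I = 0 := by
            by_contra h
            exact hI (hpat I h)
          rw [h0]
          symm
          refine sum_eq_zero fun j hj => ?_
          obtain ⟨hj1, hj2, hj3⟩ := hQ j hj
          rw [DB]
          split_ifs with h
          · push Not at hI
            obtain ⟨i, hi, hi'⟩ := hI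
            rw [hcc0 j hj I ⟨i, ?_, hi'⟩, mul_zero]
            refine mem_erase.mpr ⟨?_, mem_erase.mpr ⟨?_, hi⟩⟩
            · rintro rfl
              exact hi' (by rw [← h.1, h.2, hj3])
            · rintro rfl
              exact hi' h.2
          · rw [zero_mul]
      rw [hsum]
      refine Submodule.sum_mem _ fun j hj => ?_
      obtain ⟨hjS, hjp, hjf⟩ := hQ j hj
      have hpj : p < j := lt_of_le_of_ne (hmin j hjS) (Ne.symm hjp)
      have hje : j ∈ S.erase p := mem_erase.mpr ⟨hjp, hjS⟩
      have hss : (S.erase p).erase j ⊂ S :=
        (erase_ssubset hje).trans (erase_ssubset hp)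
      have hIH := IH ((S.erase p).erase j) hss (fun l hl => lt_of_le_of_lt
          (card_le_card (filter_subset_filter _ hss.1)) (hS l (hss.1 hl))) (cc j) (by
        intro J J' hJ
        by_cases hpJ : ∃ i ∈ (S.erase p).erase j, cl (J i) ≠ f i
        · rw [hcc0 j hj J hpJ, hcc0 j hj J']
          obtain ⟨i, hi, hi'⟩ := hpJ
          exact ⟨i, hi, by rw [← hJ i hi]; exact hi'⟩
        · push Not at hpJ
          obtain ⟨b, hbp, hb⟩ := unused cl (f p) (((S.erase p).erase j).image J)
            (lt_of_le_of_lt (card_pat cl f _ J hpJ (f p)) (by
              have := hcard j hj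
              have := hS p hp
              omega))
          have hb' : ∀ i ∈ (S.erase p).erase j, J i ≠ b :=
            fun i hi h => hb (mem_image.mpr ⟨i, hi, h⟩)
          rw [hcc j hj J b hbp hb', hcc j hj J' b hbp (fun i hi => by
            rw [← hJ i hi]; exact hb' i hi)]
          congr 1
          refine hdep _ _ fun i hi => ?_
          simp only [up2]
          split_ifs with h
          · rfl
          · push Not at h
            exact hJ i (mem_erase.mpr ⟨h.2, mem_erase.mpr ⟨h.1, hi⟩⟩)) (by
        intro a b hab hclab J
        by_cases hpJ : ∃ i ∈ (S.erase p).erase j, cl (J i) ≠ f i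
        · obtain ⟨i, hi, hi'⟩ := hpJ
          have h0 : ∀ (l : Fin k) (x : Fin n), cl x = cl (J l) →
              cc j (Function.update J l x) = 0 := by
            intro l x hx
            refine hcc0 j hj _ ⟨i, hi, ?_⟩
            by_cases hil : i = l
            · subst hil
              rw [Function.update_self, hx]
              exact hi'
            · rw [Function.update_of_ne hil]
              exact hi'
          rw [sum_eq_zero, sum_eq_zero]
          · intro l hl
            rw [h0 l a (by rw [(mem_filter.mp hl).2, hclab]), mul_zero]
          · intro l hl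
            rw [h0 l b (by rw [(mem_filter.mp hl).2, hclab]), mul_zero]
        · push Not at hpJ
          obtain ⟨b', hbp, hb'⟩ := unused cl (f p) ((((S.erase p).erase j).image J) ∪ {a, b}) (by
            rw [filter_union]
            refine lt_of_le_of_lt (card_union_le _ _) ?_
            have h1 := card_pat cl f _ J hpJ (f p)
            have h2 : (({a, b} : Finset (Fin n)).filter fun a => cl a = f p).card ≤ 2 :=
              (card_le_card (filter_subset _ _)).trans card_le_two
            have := hcard j hj
            have := hS p hp
            omega)
          simp only [mem_union, mem_image, mem_insert, mem_singleton, not_or, not_exists,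
            not_and] at hb'
          obtain ⟨hb1, hb2, hb3⟩ := hb'
          have hup : ∀ (i : Fin k) (x : Fin n), i ∈ (S.erase p).erase j → x ≠ b' →
              cc j (Function.update J i x) = c (Function.update (up2 J p j b') i x) / d b' := by
            intro i x hi hx
            rw [hcc j hj _ b' hbp]
            · congr 2
              funext l
              simp only [up2]
              rw [mem_erase, mem_erase] at hi
              by_cases hli : l = i
              · subst hli
                simp [hi.1, hi.2.1]
              · rw [Function.update_of_ne hli, Function.update_of_ne hli]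
                rfl
            · intro l hl
              by_cases hli : l = i
              · subst hli
                rw [Function.update_self]
                exact hx
              · rw [Function.update_of_ne hli]
                exact hb1 l hl
          have hfil : ∀ x : Fin n, x ≠ b' → (S.filter fun i => (up2 J p j b') i = x) =
              ((S.erase p).erase j).filter fun i => J i = x := by
            intro x hx
            ext i
            rw [mem_filter, mem_filter, mem_erase, mem_erase]
            simp only [up2]
            by_cases hip : i = p
            · subst hip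
              simp [hx.symm]
            · by_cases hij : i = j
              · subst hij
                simp [hx.symm]
              · simp [hip, hij]
          have h := hrel a b hab hclab (up2 J p j b')
          rw [hfil a (Ne.symm hb2), hfil b (Ne.symm hb3)] at h
          have h1 : ∑ i ∈ (S.erase p).erase j with J i = a, d a * cc j (Function.update J i b) =
              (∑ i ∈ (S.erase p).erase j with J i = a,
                d a * c (Function.update (up2 J p j b') i b)) / d b' := by
            rw [sum_div]
            refine sum_congr rfl fun i hi => ?_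
            rw [hup i b (mem_filter.mp hi).1 (Ne.symm hb3), mul_div_assoc]
          have h2 : ∑ i ∈ (S.erase p).erase j with J i = b, d b * cc j (Function.update J i a) =
              (∑ i ∈ (S.erase p).erase j with J i = b,
                d b * c (Function.update (up2 J p j b') i a)) / d b' := by
            rw [sum_div]
            refine sum_congr rfl fun i hi => ?_
            rw [hup i a (mem_filter.mp hi).1 (Ne.symm hb2), mul_div_assoc]
          rw [h1, h2, h]) (by
        intro J hJ i hi
        by_contra h
        exact hJ (hcc0 j hj J ⟨i, hi, h⟩))
      -- multiply by the form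
      let μ : ((Fin k → Fin n) → F) →ₗ[F] ((Fin k → Fin n) → F) :=
        LinearMap.mulLeft F (fun I => DB cl d (f p) (I p) (I j))
      have hμ : (fun I => DB cl d (f p) (I p) (I j) * cc j I) = μ (cc j) := rfl
      rw [hμ]
      have h3 : μ (cc j) ∈ (Submodule.span F (Gens cl d ((S.erase p).erase j))).map μ :=
        Submodule.mem_map_of_mem hIH
      rw [Submodule.map_span] at h3
      refine Submodule.span_mono ?_ h3
      rintro _ ⟨s, ⟨σ, κ, hσ1, hσ2, hσ3, hσ4⟩, rfl⟩
      have hσp : σ p = p := hσ3 p (by simp)
      have hσj : σ j = j := hσ3 j (by simp)
      have hne1 : ∀ i, i ≠ p → σ i ≠ p := by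
        intro i hi h
        have := hσ1 i
        rw [h, hσp] at this
        exact hi this.symm
      have hne2 : ∀ i, i ≠ j → σ i ≠ j := by
        intro i hi h
        have := hσ1 i
        rw [h, hσj] at this
        exact hi this.symm
      refine ⟨fun i => if i = p then j else if i = j then p else σ i,
        fun i => if i = p then f p else κ i, ?_, ?_, ?_, ?_⟩
      · intro i
        by_cases hip : i = p
        · subst hip
          simp [hjp]
        · by_cases hij : i = j
          · subst hij
            simp [hip]
          · simp [hip, hij, hne1 i hip, hne2 i hij, hσ1 i]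
      · intro i hi
        by_cases hip : i = p
        · subst hip
          simp [hjp]
        · by_cases hij : i = j
          · subst hij
            simp [hip, Ne.symm hip]
          · simp only [hip, hij, if_false]
            exact hσ2 i (mem_erase.mpr ⟨hij, mem_erase.mpr ⟨hip, hi⟩⟩)
      · intro i hi
        have hip : i ≠ p := fun h => hi (h ▸ hp)
        have hij : i ≠ j := fun h => hi (h ▸ hjS)
        simp only [hip, hij, if_false]
        exact hσ3 i fun h => hi (mem_of_mem_erase (mem_of_mem_erase h))
      · intro I
        have hμs : μ s I = DB cl d (f p) (I p) (I j) * s I := rfl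
        rw [hμs, hσ4 I]
        have hf : (univ.filter fun i : Fin k =>
            i < (if i = p then j else if i = j then p else σ i)) =
            insert p (univ.filter fun i => i < σ i) := by
          ext i
          simp only [mem_filter, mem_univ, true_and, mem_insert]
          by_cases hip : i = p
          · subst hip
            simp [hpj]
          · by_cases hij : i = j
            · subst hij
              simp [hip, hσj, hpj.le]
            · simp [hip, hij]
        rw [hf, prod_insert (by simp [hσp])]
        congr 1
        · simp
        · refine prod_congr rfl fun i hi => ?_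
          rw [mem_filter] at hi
          have hip : i ≠ p := by
            rintro rfl
            rw [hσp] at hi
            exact lt_irrefl _ hi.2
          have hij : i ≠ j := by
            rintro rfl
            rw [hσj] at hi
            exact lt_irrefl _ hi.2
          simp [hip, hij]

end core

end Pool.Agent.W417.K3.Fft2
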