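import Pool.Agent.W544.K3.Defs3
import Pool.Agent.W417.K3.FftB
import Pool.Agent.W417.K3.Fft2A

/-!
# First fundamental theorem for products of orthogonal Lie algebras (stable range): assembly
-/

open Module Finset

namespace Pool.Agent.W417.K3.Fft2

open Pool.Agent.W544.K3 Pool.Agent.W417.K3.Fft

variable {n N k : ℕ}

/-! ### Multilinear forms of pairings -/

theorem prod_update' {V : Type*} (b : Fin k → V → V → ℚ) (σ : Fin k → Fin k)
    (hσ : ∀ j, σ (σ j) = j)
    (hσ' : ∀ j, σ j ≠ j) (m : Fin k → V) (i : Fin k) :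
    ∃ (i' : Fin k) (w : V) (C : ℚ) (l : Bool), ∀ x : V,
      ∏ j with j < σ j, b j (Function.update m i x j) (Function.update m i x (σ j)) =
        (if l then b i' x w else b i' w x) * C := by
  rcases lt_or_gt_of_ne (hσ' i) with h | h
  · -- `σ i < i`
    refine ⟨σ i, m (σ i), ∏ j ∈ (univ.filter fun j => j < σ j).erase (σ i), b j (m j) (m (σ j)),
      false, ?_⟩
    intro x
    have hmem : σ i ∈ univ.filter fun j => j < σ j := by simp [hσ i, h]
    rw [← mul_prod_erase _ _ hmem, hσ i, Function.update_self, Function.update_of_ne (hσ' i)]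
    simp only [Bool.false_eq_true, if_false]
    congr 1
    refine prod_congr rfl fun j hj => ?_
    rw [mem_erase, mem_filter] at hj
    have h1 : j ≠ i := by
      rintro rfl
      exact lt_asymm h hj.2.2
    have h2 : σ j ≠ i := by
      intro h'
      apply hj.1
      rw [← h', hσ]
    rw [Function.update_of_ne h1, Function.update_of_ne h2]
  · refine ⟨i, m (σ i), ∏ j ∈ (univ.filter fun j => j < σ j).erase i, b j (m j) (m (σ j)),
      true, ?_⟩
    intro x
    have hmem : i ∈ univ.filter fun j => j < σ j := by simpa using h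
    rw [← mul_prod_erase _ _ hmem, Function.update_self, Function.update_of_ne (hσ' i)]
    simp only [if_true]
    congr 1
    refine prod_congr rfl fun j hj => ?_
    rw [mem_erase, mem_filter] at hj
    have h2 : σ j ≠ i := by
      intro h'
      have h3 := hσ j
      rw [h'] at h3
      rw [← h3] at hj
      rw [hσ] at hj
      exact lt_asymm h hj.2.2
    rw [Function.update_of_ne hj.1, Function.update_of_ne h2]

/-- the multilinear form of a pairing of the slots with different forms -/
def Tσκ {V : Type*} [AddCommGroup V] [Module ℚ V] (b : Fin k → V →ₗ[ℚ] V →ₗ[ℚ] ℚ)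
    (σ : Fin k → Fin k) (hσ : ∀ j, σ (σ j) = j)
    (hσ' : ∀ j, σ j ≠ j) : MultilinearMap ℚ (fun _ : Fin k => V) ℚ where
  toFun v := ∏ j with j < σ j, b j (v j) (v (σ j))
  map_update_add' := by
    intro inst m i x y
    have hinst : inst = instDecidableEqFin k := Subsingleton.elim _ _
    subst hinst
    obtain ⟨i', w, C, l, h⟩ := prod_update' (fun j u v => b j u v) σ hσ hσ' m i
    rw [h, h, h]
    cases l <;> simp [add_mul]
  map_update_smul' := by
    intro inst m i c x
    have hinst : inst = instDecidableEqFin k := Subsingleton.elim _ _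
    subst hinst
    obtain ⟨i', w, C, l, h⟩ := prod_update' (fun j u v => b j u v) σ hσ hσ' m i
    rw [h, h]
    cases l <;> simp [mul_assoc]

theorem Tσκ_apply {V : Type*} [AddCommGroup V] [Module ℚ V] (b : Fin k → V →ₗ[ℚ] V →ₗ[ℚ] ℚ)
    (σ : Fin k → Fin k) (hσ : ∀ j, σ (σ j) = j) (hσ' : ∀ j, σ j ≠ j) (v : Fin k → V) :
    Tσκ b σ hσ hσ' v = ∏ j with j < σ j, b j (v j) (v (σ j)) := rfl

/-! ### Orthogonal bases -/

theorem exists_basis_type {α : Type} [Fintype α] [DecidableEq α] (B : Matrix α α ℚ)
    (hB : ∀ i j, B i j = B j i)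
    (hnd : ∀ u : α → ℚ, (∀ v, Matrix.toBilin' B u v = 0) → u = 0) :
    ∃ q : Basis α ℚ (α → ℚ), (∀ i j, i ≠ j → Matrix.toBilin' B (q i) (q j) = 0) ∧
      ∀ i, Matrix.toBilin' B (q i) (q i) ≠ 0 := by
  have : Invertible (2 : ℚ) := invertibleOfNonzero two_ne_zero
  have hs : LinearMap.IsSymm (Matrix.toBilin' B) := ⟨fun u v => by
    rw [RingHom.id_apply, Matrix.toBilin'_apply, Matrix.toBilin'_apply, Finset.sum_comm]
    refine sum_congr rfl fun i _ => sum_congr rfl fun j _ => ?_
    rw [hB j i]
    ring⟩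
  obtain ⟨q, hq⟩ := LinearMap.BilinForm.exists_orthogonal_basis (B := Matrix.toBilin' B) hs
  have hnd' : (Matrix.toBilin' B).SeparatingLeft := fun u hu => hnd u hu
  have hn := hq.not_isOrtho_basis_self_of_separatingLeft hnd'
  have hr : Fintype.card α = finrank ℚ (α → ℚ) := (Module.finrank_fintype_fun_eq_card ℚ).symm
  let e : Fin (finrank ℚ (α → ℚ)) ≃ α := (Fintype.equivFinOfCardEq hr).symm
  refine ⟨q.reindex e, ?_, ?_⟩
  · intro i j hij
    rw [Basis.reindex_apply, Basis.reindex_apply]
    exact LinearMap.isOrthoᵢ_def.mp hq _ _ fun h => hij (e.symm.injective h)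
  · intro i
    rw [Basis.reindex_apply]
    exact hn _

/-- extension by zero from a block -/
def extB (c : Fin n → Fin N) (i : Fin N) (u : {a : Fin n // c a = i} → ℚ) : Fin n → ℚ :=
  fun x => if h : c x = i then u ⟨x, h⟩ else 0

theorem sum_block (c : Fin n → Fin N) (i : Fin N) {M : Type} [AddCommMonoid M] (g : Fin n → M)
    (hg : ∀ x, c x ≠ i → g x = 0) : ∑ x, g x = ∑ x : {a : Fin n // c a = i}, g x.1 := by
  have h1 : ∑ x, g x = ∑ x with c x = i, g x := by
    rw [sum_filter]
    refine sum_congr rfl fun x _ => ?_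
    by_cases h : c x = i
    · rw [if_pos h]
    · rw [if_neg h, hg x h]
  rw [h1, ← Finset.sum_subtype_eq_sum_filter, Finset.subtype_univ]

theorem extB_val (c : Fin n → Fin N) (i : Fin N) (u : {a : Fin n // c a = i} → ℚ)
    (x : {a : Fin n // c a = i}) : extB c i u x.1 = u x := by
  rw [extB, dif_pos x.2]

theorem extB_zero (c : Fin n → Fin N) (i : Fin N) (u : {a : Fin n // c a = i} → ℚ)
    (x : Fin n) (h : c x ≠ i) : extB c i u x = 0 := by
  rw [extB, dif_neg h]

variable (X : Multi n N)

/-- the matrix of a block -/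
def BB (i : Fin N) : Matrix {a : Fin n // X.c a = i} {a : Fin n // X.c a = i} ℚ :=
  fun a b => X.B a.1 b.1

theorem BQ_extB (i : Fin N) (u v : {a : Fin n // X.c a = i} → ℚ) :
    BQ X.B (extB X.c i u) (extB X.c i v) = Matrix.toBilin' (BB X i) u v := by
  rw [BQ, Matrix.toBilin'_apply, Matrix.toBilin'_apply,
    sum_block X.c i _ (fun x hx => by
      refine sum_eq_zero fun y _ => ?_
      rw [extB_zero X.c i u x hx, zero_mul, zero_mul])]
  refine sum_congr rfl fun x _ => ?_
  rw [sum_block X.c i _ (fun y hy => by rw [extB_zero X.c i v y hy, mul_zero])]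
  refine sum_congr rfl fun y _ => ?_
  rw [extB_val, extB_val]
  rfl

theorem block_nondeg (i : Fin N) (u : {a : Fin n // X.c a = i} → ℚ)
    (h : ∀ v, Matrix.toBilin' (BB X i) u v = 0) : u = 0 := by
  have h1 : ∀ b, X.c b = i → ∑ a, (extB X.c i u a) * X.B a b = 0 := by
    intro b hb
    have h2 := h (Pi.single ⟨b, hb⟩ 1)
    rw [Matrix.toBilin'_apply] at h2
    rw [sum_block X.c i _ (fun x hx => by rw [extB_zero X.c i u x hx, zero_mul])]
    rw [← h2]
    refine sum_congr rfl fun a _ => ?_
    rw [Finset.sum_eq_single (⟨b, hb⟩ : {a : Fin n // X.c a = i})]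
    · rw [extB_val, Pi.single_eq_same, mul_one]
      rfl
    · intro y _ hy
      rw [Pi.single_eq_of_ne hy, mul_zero]
    · intro h
      exact absurd (mem_univ _) h
  by_contra h0
  have hv0 : (cv (extB X.c i u) : Fin n → ℝ) ≠ 0 := by
    intro h3
    apply h0
    funext a
    have h4 := congrFun h3 a.1
    simp only [cv, Pi.zero_apply] at h4
    rw [extB_val] at h4
    exact_mod_cast h4
  have h5 : ∀ w : Fin n → ℂ, (∀ a, X.c a ≠ i → w a = 0) →
      bil X.B (fun a => ((cv (extB X.c i u) a : ℝ) : ℂ)) w = 0 := by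
    intro w hw
    unfold bil
    rw [Finset.sum_comm]
    refine sum_eq_zero fun b _ => ?_
    rw [← Finset.sum_mul]
    by_cases hb : X.c b = i
    · have h6 : ∑ a, ((cv (extB X.c i u) a : ℝ) : ℂ) * (X.B a b : ℂ) = 0 := by
        have h7 : ((∑ a, (extB X.c i u a) * X.B a b : ℚ) : ℂ) = 0 := by
          rw [h1 b hb, Rat.cast_zero]
        push_cast at h7
        simp only [cv]
        push_cast
        exact h7
      rw [h6, zero_mul]
    · rw [hw b hb, mul_zero]
  have hsup : ∀ a, X.c a ≠ i → cv (extB X.c i u) a = 0 := by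
    intro a ha
    simp only [cv]
    rw [extB_zero X.c i u a ha, Rat.cast_zero]
  have h8 := X.neg i (cv (extB X.c i u)) hsup hv0 (h5 _ (X.ωblock i))
  rw [h5 _ (fun a ha => by rw [hsup a ha, Complex.ofReal_zero])] at h8
  exact lt_irrefl _ h8

theorem exists_block_basis :
    ∃ q : Basis (Fin n) ℚ (Fin n → ℚ), (∀ a x, X.c x ≠ X.c a → q a x = 0) ∧
      (∀ a b, a ≠ b → BQ X.B (q a) (q b) = 0) ∧ ∀ a, BQ X.B (q a) (q a) ≠ 0 := by
  choose q hq1 hq2 using fun i => exists_basis_type (BB X i) (fun a b => X.symm a.1 b.1)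
    (block_nondeg X i)
  let Q : Fin n → Fin n → ℚ := fun a => extB X.c (X.c a) (q (X.c a) ⟨a, rfl⟩)
  have hQ : ∀ (a : Fin n) (i : Fin N) (h : X.c a = i), Q a = extB X.c i (q i ⟨a, h⟩) := by
    intro a i h
    subst h
    rfl
  have h1 : ∀ a x, X.c x ≠ X.c a → Q a x = 0 := fun a x h => extB_zero X.c _ _ x h
  have h2 : ∀ a b, a ≠ b → BQ X.B (Q a) (Q b) = 0 := by
    intro a b hab
    by_cases h : X.c b = X.c a
    · rw [hQ b _ h]
      change BQ X.B (extB X.c (X.c a) (q (X.c a) ⟨a, rfl⟩)) _ = 0
      rw [BQ_extB]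
      exact hq1 _ _ _ (fun h' => hab (congrArg Subtype.val h'))
    · rw [BQ, Matrix.toBilin'_apply]
      refine sum_eq_zero fun x _ => sum_eq_zero fun y _ => ?_
      by_cases hx : X.c x = X.c a
      · by_cases hy : X.c y = X.c b
        · rw [X.Bblock x y (by rw [hx, hy]; exact Ne.symm h), mul_zero, zero_mul]
        · rw [h1 b y hy, mul_zero]
      · rw [h1 a x hx, zero_mul, zero_mul]
  have h3 : ∀ a, BQ X.B (Q a) (Q a) ≠ 0 := by
    intro a
    change BQ X.B (extB X.c (X.c a) (q (X.c a) ⟨a, rfl⟩))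
      (extB X.c (X.c a) (q (X.c a) ⟨a, rfl⟩)) ≠ 0
    rw [BQ_extB]
    exact hq2 _ _
  rcases isEmpty_or_nonempty (Fin n) with he | he
  · exact ⟨Pi.basisFun ℚ (Fin n), fun a => he.elim a, fun a => he.elim a, fun a => he.elim a⟩
  · have hli : LinearIndependent ℚ Q :=
      LinearMap.linearIndependent_of_isOrthoᵢ (B := BQ X.B)
        (LinearMap.isOrthoᵢ_def.mpr h2) h3
    refine ⟨basisOfLinearIndependentOfCardEqFinrank hli (by simp), ?_, ?_, ?_⟩ <;>
      rw [coe_basisOfLinearIndependentOfCardEqFinrank]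
    · exact h1
    · exact h2
    · exact h3

/-! ### The relation -/

theorem relation' (B : Matrix (Fin n) (Fin n) ℚ)
    (t : (Fin k → Fin n) → ℚ) (u v : Fin n → ℚ)
    (ht : Kills (wedge (bilR B) (cv u) (cv v)) (formR t)) (m : Fin k → Fin n → ℚ) :
    ∑ j, BQ B u (m j) * formQ t (Function.update m j v) =
      ∑ j, BQ B v (m j) * formQ t (Function.update m j u) := by
  have h := ht (fun j => cv (m j))
  have h1 : ∀ j, formR t (Function.update (fun j => cv (m j)) j
      (wedge (bilR B) (cv u) (cv v) (cv (m j)))) =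
      ((BQ B u (m j) * formQ t (Function.update m j v) -
        BQ B v (m j) * formQ t (Function.update m j u) : ℚ) : ℝ) := by
    intro j
    rw [wedge_apply, bilR_cv, bilR_cv, MultilinearMap.map_update_sub,
      MultilinearMap.map_update_smul, MultilinearMap.map_update_smul]
    have h2 : ∀ w : Fin n → ℚ, Function.update (fun j => cv (m j)) j (cv w) =
        fun i => cv (Function.update m j w i) := by
      intro w
      exact (Function.comp_update cv m j w).symm
    rw [h2, h2, formR_cv, formR_cv]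
    push_cast
    rfl
  simp only [h1] at h
  rw [← Rat.cast_sum] at h
  have h3 : ∑ j, (BQ B u (m j) * formQ t (Function.update m j v) -
        BQ B v (m j) * formQ t (Function.update m j u)) = 0 := by exact_mod_cast h
  rw [sum_sub_distrib] at h3
  exact sub_eq_zero.mp h3

theorem bilR_block (i : Fin N) (u v : Fin n → ℝ) (hu : ∀ a, X.c a ≠ i → u a = 0)
    (hv : ∀ a, X.c a = i → v a = 0) : bilR X.B u v = 0 := by
  rw [bilR_apply]
  refine sum_eq_zero fun x _ => sum_eq_zero fun y _ => ?_
  by_cases hx : X.c x = i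
  · by_cases hy : X.c y = i
    · rw [hv y hy, mul_zero]
    · rw [X.Bblock x y (by rw [hx]; exact Ne.symm hy), Rat.cast_zero, mul_zero, zero_mul]
  · rw [hu x hx, zero_mul, zero_mul]

/-- the matrix of the form of a block -/
def blkM (i : Fin N) : Matrix (Fin n) (Fin n) ℚ := fun a b => X.blk i a b

theorem blkM_apply (i : Fin N) (u v : Fin n → ℚ) :
    Matrix.toBilin' (blkM X i) u v = ∑ x, ∑ y, u x * X.blk i x y * v y :=
  Matrix.toBilin'_apply _ _ _

theorem fft2 : S_fft2 := by
  intro n N X k t ht hsupp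
  classical
  obtain ⟨q, hq0, hq1, hq2⟩ := exists_block_basis X
  obtain ⟨d, hd, hD⟩ : ∃ d : Fin n → ℚ, (∀ a, d a ≠ 0) ∧
      ∀ a b, BQ X.B (q a) (q b) = if a = b then d a else 0 := by
    refine ⟨fun a => BQ X.B (q a) (q a), hq2, fun a b => ?_⟩
    split_ifs with h
    · rw [h]
    · exact hq1 a b h
  -- the coefficients in the basis
  let c0 : (Fin k → Fin n) → ℚ := fun J => formQ t (fun j => q (J j))
  have hrel : Rel X.c d univ c0 := by
    intro a b hab hcl J
    have hkill : Kills (wedge (bilR X.B) (cv (q a)) (cv (q b))) (formR t) := by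
      refine ht (X.c a) _ (wedge_skew _ (bilR_symm X.B X.symm) _ _) fun v hv => ?_
      rw [wedge_apply]
      have e1 : bilR X.B (cv (q a)) v = 0 := bilR_block X (X.c a) _ _ (fun x hx => by
        simp only [cv]
        rw [hq0 a x hx, Rat.cast_zero]) hv
      have e2 : bilR X.B (cv (q b)) v = 0 := bilR_block X (X.c a) _ _ (fun x hx => by
        simp only [cv]
        rw [hq0 b x (by rw [← hcl]; exact hx), Rat.cast_zero]) hv
      rw [e1, e2, zero_smul, zero_smul, sub_zero]
    have h := relation' X.B t (q a) (q b) hkill (fun j => q (J j))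
    have h2 : ∀ (j : Fin k) (x : Fin n), Function.update (fun j => q (J j)) j (q x) =
        fun i => q (Function.update J j x i) := by
      intro j x
      exact (Function.comp_update q J j x).symm
    simp only [h2, hD] at h
    rw [sum_filter, sum_filter]
    refine Eq.trans ?_ (h.trans ?_)
    · refine sum_congr rfl fun j _ => ?_
      by_cases hj : J j = a
      · rw [if_pos hj, if_pos hj.symm]
      · rw [if_neg hj, if_neg (Ne.symm hj), zero_mul]
    · refine sum_congr rfl fun j _ => ?_
      by_cases hj : J j = b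
      · rw [if_pos hj, if_pos hj.symm]
      · rw [if_neg hj, if_neg (Ne.symm hj), zero_mul]
  have hsupp0 : ∀ J, c0 J ≠ 0 → ∀ i, (univ.filter fun j => X.c (J j) = i).card < X.rk i := by
    intro J hJ i
    have h1 : formQ t (fun j => q (J j)) ≠ 0 := hJ
    rw [formQ_apply] at h1
    obtain ⟨I, -, hI⟩ := Finset.exists_ne_zero_of_sum_ne_zero h1
    have h2 : t I ≠ 0 := fun h => hI (by rw [h, zero_mul])
    have h3 : ∀ j, X.c (I j) = X.c (J j) := by
      intro j
      by_contra h
      apply hI
      rw [Finset.prod_eq_zero (mem_univ j) (hq0 (J j) (I j) h), mul_zero]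
    have h4 := hsupp I h2 i
    simp only [h3] at h4
    exact h4
  -- decomposition into patterns
  let cf : (Fin k → Fin N) → (Fin k → Fin n) → ℚ := fun f J =>
    if (fun j => X.c (J j)) = f then c0 J else 0
  have hc0 : c0 = ∑ f, cf f := by
    funext J
    rw [Finset.sum_apply]
    simp only [cf]
    rw [Finset.sum_ite_eq, if_pos (mem_univ _)]
  have hkey : c0 ∈ Submodule.span ℚ (Gens X.c d univ) := by
    rw [hc0]
    refine Submodule.sum_mem _ fun f _ => ?_
    by_cases hz : cf f = 0
    · rw [hz]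
      exact Submodule.zero_mem _
    obtain ⟨J1, hJ1⟩ := Function.ne_iff.mp hz
    have hJ1' : (fun j => X.c (J1 j)) = f := by
      by_contra h
      apply hJ1
      simp only [cf]
      rw [if_neg h]
      rfl
    have hJ1'' : c0 J1 ≠ 0 := by
      intro h
      apply hJ1
      simp only [cf]
      rw [if_pos hJ1', h]
      rfl
    refine key X.c d hd f univ (fun j _ => ?_) (cf f) ?_ ?_ ?_
    · have h1 := hsupp0 J1 hJ1'' (f j)
      have h2 : ∀ l, X.c (J1 l) = f l := fun l => congrFun hJ1' l
      simp only [h2] at h1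
      exact h1
    · intro J J' h
      have : J = J' := funext fun j => h j (mem_univ _)
      rw [this]
    · intro a b hab hcl J
      have hpat : ∀ (l : Fin k) (x : Fin n), X.c x = X.c (J l) →
          cf f (Function.update J l x) =
            if (fun j => X.c (J j)) = f then c0 (Function.update J l x) else 0 := by
        intro l x hx
        simp only [cf]
        have : (fun j => X.c (Function.update J l x j)) = fun j => X.c (J j) := by
          funext j
          by_cases hj : j = l
          · subst hj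
            rw [Function.update_self, hx]
          · rw [Function.update_of_ne hj]
        rw [this]
      have e1 : ∑ j ∈ univ with J j = a, d a * cf f (Function.update J j b) =
          if (fun j => X.c (J j)) = f then
            ∑ j ∈ univ with J j = a, d a * c0 (Function.update J j b) else 0 := by
        split_ifs with h
        · refine sum_congr rfl fun j hj => ?_
          rw [hpat j b (by rw [(mem_filter.mp hj).2, hcl]), if_pos h]
        · refine sum_eq_zero fun j hj => ?_
          rw [hpat j b (by rw [(mem_filter.mp hj).2, hcl]), if_neg h, mul_zero]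
      have e2 : ∑ j ∈ univ with J j = b, d b * cf f (Function.update J j a) =
          if (fun j => X.c (J j)) = f then
            ∑ j ∈ univ with J j = b, d b * c0 (Function.update J j a) else 0 := by
        split_ifs with h
        · refine sum_congr rfl fun j hj => ?_
          rw [hpat j a (by rw [(mem_filter.mp hj).2, hcl]), if_pos h]
        · refine sum_eq_zero fun j hj => ?_
          rw [hpat j a (by rw [(mem_filter.mp hj).2, hcl]), if_neg h, mul_zero]
      rw [e1, e2, hrel a b hab hcl J]
    · intro J hJ j _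
      by_contra h
      apply hJ
      simp only [cf]
      rw [if_neg]
      intro h'
      exact h (congrFun h' j)
  -- evaluation on the basis
  let bf : Fin N → (Fin n → ℚ) →ₗ[ℚ] (Fin n → ℚ) →ₗ[ℚ] ℚ := fun i =>
    Matrix.toBilin' (blkM X i)
  have hbf : ∀ i a b, bf i (q a) (q b) = DB X.c d i a b := by
    intro i a b
    change Matrix.toBilin' (blkM X i) (q a) (q b) = _
    rw [blkM_apply]
    by_cases hi : X.c a = i
    · have h1 : ∑ x, ∑ y, q a x * X.blk i x y * q b y = BQ X.B (q a) (q b) := by
        rw [BQ, Matrix.toBilin'_apply]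
        refine sum_congr rfl fun x _ => sum_congr rfl fun y _ => ?_
        by_cases hx : X.c x = i
        · rw [Multi.blk, if_pos hx]
        · rw [hq0 a x (by rw [hi]; exact hx), zero_mul, zero_mul, zero_mul, zero_mul]
      rw [h1, hD, DB]
      simp [hi]
    · rw [DB, if_neg (fun h => hi h.2)]
      refine sum_eq_zero fun x _ => sum_eq_zero fun y _ => ?_
      by_cases hx : X.c x = i
      · rw [hq0 a x (by rw [hx]; exact Ne.symm hi), zero_mul, zero_mul]
      · rw [Multi.blk, if_neg hx, mul_zero, zero_mul]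
  let evq : MultilinearMap ℚ (fun _ : Fin k => (Fin n → ℚ)) ℚ →ₗ[ℚ] ((Fin k → Fin n) → ℚ) :=
    { toFun := fun T J => T (fun j => q (J j))
      map_add' := fun _ _ => rfl
      map_smul' := fun _ _ => rfl }
  have hinj : Function.Injective evq := by
    intro T T' h
    exact Basis.ext_multilinear (fun _ => q) fun J => congrFun h J
  let eve : MultilinearMap ℚ (fun _ : Fin k => (Fin n → ℚ)) ℚ →ₗ[ℚ] ((Fin k → Fin n) → ℚ) :=
    { toFun := fun T J => T (fun j => Pi.single (J j) 1)
      map_add' := fun _ _ => rfl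
      map_smul' := fun _ _ => rfl }
  let GG : Set (MultilinearMap ℚ (fun _ : Fin k => (Fin n → ℚ)) ℚ) :=
    {T | ∃ (σ : Fin k → Fin k) (κ : Fin k → Fin N) (h1 : ∀ j, σ (σ j) = j) (h2 : ∀ j, σ j ≠ j),
      T = Tσκ (fun j => bf (κ j)) σ h1 h2}
  have h1 : evq (formQ t) ∈ (Submodule.span ℚ GG).map evq := by
    rw [Submodule.map_span]
    refine Submodule.span_mono ?_ hkey
    rintro s ⟨σ, κ, hσ1, hσ2, -, hσ4⟩
    refine ⟨Tσκ (fun j => bf (κ j)) σ hσ1 (fun j => hσ2 j (mem_univ _)), ⟨σ, κ, hσ1, _, rfl⟩, ?_⟩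
    funext I
    rw [hσ4 I]
    refine (Tσκ_apply (fun j => bf (κ j)) σ hσ1 (fun j => hσ2 j (mem_univ _)) _).trans ?_
    refine prod_congr rfl fun j _ => ?_
    exact hbf _ _ _
  obtain ⟨T, hT, hT'⟩ := h1
  have h2 : formQ t ∈ Submodule.span ℚ GG := by
    rw [← hinj hT']
    exact hT
  have h3 : eve (formQ t) ∈ (Submodule.span ℚ GG).map eve := Submodule.mem_map_of_mem h2
  have h4 : eve (formQ t) = t := by
    funext I
    exact formQ_single t I
  rw [h4, Submodule.map_span] at h3
  refine Submodule.span_mono ?_ h3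
  rintro _ ⟨_, ⟨σ, κ, hσ1, hσ2, rfl⟩, rfl⟩
  refine ⟨σ, κ, hσ1, hσ2, fun I => ?_⟩
  refine (Tσκ_apply (fun j => bf (κ j)) σ hσ1 hσ2 _).trans ?_
  refine prod_congr rfl fun j _ => ?_
  exact Matrix.toBilin'_single _ _ _

end Pool.Agent.W417.K3.Fft2
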