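import Pool.Agent.W544.K3.Defs2
import Pool.Agent.W544.K3.Main

/-!
# K3-IND2
-/

open Module Finset

namespace Pool.Agent.W417.K3.Ind2

open Pool.Agent.W544.K3

noncomputable section

variable {n N : ℕ}

/-- the real operator of a rational matrix -/
def opR (x : Matrix (Fin n) (Fin n) ℚ) : End ℝ (Fin n → ℝ) :=
  Matrix.toLin' (x.map (fun q : ℚ => (q : ℝ)))

theorem opR_apply (x : Matrix (Fin n) (Fin n) ℚ) (v : Fin n → ℝ) (i : Fin n) :
    opR x v i = ∑ j, (x i j : ℝ) * v j := by
  simp [opR, Matrix.mulVec, dotProduct]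

theorem formR_basis {k : ℕ} (t : (Fin k → Fin n) → ℚ) (I : Fin k → Fin n) :
    formR t (fun j => Pi.single (I j) (1 : ℝ)) = (t I : ℝ) := by
  rw [formR_apply, Finset.sum_eq_single I]
  · simp
  · intro b _ hb
    have : ∃ j, b j ≠ I j := by
      by_contra hcon
      push Not at hcon
      exact hb (funext hcon)
    obtain ⟨j, hj⟩ := this
    rw [Finset.prod_eq_zero (Finset.mem_univ j), mul_zero]
    rw [Pi.single_apply, if_neg hj]
  · intro h
    exact absurd (Finset.mem_univ _) h

theorem lie_mem (X : Multi n N) (x : Matrix (Fin n) (Fin n) ℚ) (hx : x ∈ X.lie) :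
    opR x ∈ X.hT := by
  intro k t ht
  let T : MultilinearMap ℝ (fun _ : Fin k => (Fin n → ℝ)) ℝ :=
    ∑ j : Fin k, (formR t).compLinearMap (fun i => if i = j then opR x else LinearMap.id)
  have hT : ∀ v, T v = ∑ j, formR t (Function.update v j (opR x (v j))) := by
    intro v
    simp only [T, _root_.sum_apply, MultilinearMap.compLinearMap_apply]
    refine Finset.sum_congr rfl fun j _ => ?_
    congr 1
    funext i
    by_cases h : i = j
    · subst h
      simp
    · simp [h]
  have hT0 : T = 0 := by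
    refine Module.Basis.ext_multilinear (fun _ => Pi.basisFun ℝ (Fin n)) ?_
    intro I
    rw [hT]
    simp only [Pi.basisFun_apply, _root_.zero_apply]
    have h1 := hx k t ht I
    have h2 : ∀ j, formR t (Function.update (fun i => Pi.single (I i) (1 : ℝ)) j
        (opR x (Pi.single (I j) 1))) = ∑ l, (x l (I j) : ℝ) * (t (Function.update I j l) : ℝ) := by
      intro j
      have h3 : opR x (Pi.single (I j) 1) = ∑ l, (x l (I j) : ℝ) • Pi.single l (1 : ℝ) := by
        funext i
        rw [opR_apply]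
        simp [Pi.single_apply, Finset.sum_apply]
      rw [h3, MultilinearMap.map_update_sum]
      refine Finset.sum_congr rfl fun l _ => ?_
      rw [MultilinearMap.map_update_smul, smul_eq_mul]
      congr 1
      rw [← formR_basis]
      congr 1
      funext i
      by_cases h : i = j
      · subst h
        simp
      · simp [h]
    simp only [h2]
    exact_mod_cast h1
  intro v
  rw [← hT, hT0]
  rfl

variable (X : Multi n N)

theorem bilR_symm' (u v : Fin n → ℝ) : bilR X.B u v = bilR X.B v u := by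
  rw [bilR_apply, bilR_apply, Finset.sum_comm]
  exact Finset.sum_congr rfl fun i _ => Finset.sum_congr rfl fun j _ => by
    rw [X.symm j i]; ring

theorem re_mem (i : Fin N) : reV (X.ω i) ∈ X.U i := by
  refine ⟨fun a ha => ?_, ?_⟩
  · simp only [reV]
    rw [X.ωblock i a ha, Complex.zero_re]
  · intro P _ c hc a
    have h1 := congrFun hc a
    have h2 := congrArg Complex.re h1
    simp only [app, Pi.smul_apply, smul_eq_mul, Complex.re_sum, Complex.mul_re,
      Complex.ratCast_re, Complex.ratCast_im, Complex.ofReal_re, Complex.ofReal_im, zero_mul,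
      sub_zero] at h2
    simp only [reV]
    exact h2

theorem im_mem (i : Fin N) : imV (X.ω i) ∈ X.U i := by
  refine ⟨fun a ha => ?_, ?_⟩
  · simp only [imV]
    rw [X.ωblock i a ha, Complex.zero_im]
  · intro P _ c hc a
    have h1 := congrFun hc a
    have h2 := congrArg Complex.im h1
    simp only [app, Pi.smul_apply, smul_eq_mul, Complex.im_sum, Complex.mul_im,
      Complex.ratCast_re, Complex.ratCast_im, Complex.ofReal_re, Complex.ofReal_im, zero_mul,
      add_zero] at h2
    simp only [imV]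
    exact h2

theorem nondeg_U (i : Fin N) (u : Fin n → ℝ) (hu : u ∈ X.U i)
    (h : ∀ v ∈ X.U i, bilR X.B u v = 0) : u = 0 := by
  by_contra h0
  have h3 : bil X.B (toC u) (X.ω i) = 0 := by
    rw [eq_re_im (X.ω i), bil_add_right, bil_smul_right, bil_toC, bil_toC,
      h _ (re_mem X i), h _ (im_mem X i)]
    simp
  have h4 := X.neg i u hu.1 h0 h3
  have h5 : bil X.B (fun a => (u a : ℂ)) (fun a => (u a : ℂ)) = ((bilR X.B u u : ℝ) : ℂ) :=
    bil_toC X.B u u
  rw [h5, Complex.ofReal_re, h u hu] at h4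
  exact lt_irrefl _ h4

theorem isCompl_U (i : Fin N) : IsCompl (X.U i) (orth (bilR X.B) (X.U i)) := by
  have h1 : orth (bilR X.B) (X.U i) = LinearMap.BilinForm.orthogonal (bilR X.B) (X.U i) := by
    ext v
    exact LinearMap.BilinForm.mem_orthogonal_iff.symm
  rw [h1]
  refine LinearMap.BilinForm.isCompl_orthogonal_of_restrict_nondegenerate ?_ ?_
  · intro u v huv
    rw [bilR_symm' X]; exact huv
  · constructor
    · intro u hu
      have := nondeg_U X i u u.2 (fun v hv => hu ⟨v, hv⟩)
      exact Subtype.ext this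
    · intro u hu
      have := nondeg_U X i u u.2 (fun v hv => by rw [bilR_symm' X]; exact hu ⟨v, hv⟩)
      exact Subtype.ext this

theorem ind2 : S_irr2 → S_ind2 := by
  intro hirr n N X hR hE hD hM i j hij Ψ hΨ
  obtain ⟨-, hskew, hstab⟩ := hirr n N X hR hE hD hM i
  have hc := isCompl_U X i
  let π : (Fin n → ℝ) →ₗ[ℝ] X.U i := Submodule.projectionOnto _ _ hc
  let P : End ℝ (Fin n → ℝ) := (X.U j).subtype ∘ₗ Ψ ∘ₗ π
  have hπ : ∀ u : X.U i, π u = u := fun u => Submodule.projectionOnto_apply_left hc u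
  have hπ' : ∀ w ∈ orth (bilR X.B) (X.U i), π w = 0 := fun w hw =>
    Submodule.projectionOnto_apply_of_mem_right hc hw
  have hcomm : ∀ y ∈ X.hT, ∀ v, P (y v) = y (P v) := by
    intro y hy v
    have hv : v ∈ X.U i ⊔ orth (bilR X.B) (X.U i) := by
      rw [hc.sup_eq_top]
      exact Submodule.mem_top
    obtain ⟨u, hu, w, hw, rfl⟩ := Submodule.mem_sup.1 hv
    have hyw : y w ∈ orth (bilR X.B) (X.U i) := by
      intro u' hu'
      have h1 := hskew y hy u' w
      rw [hw _ (hstab y hy u' hu'), zero_add] at h1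
      exact h1
    have h1 : π (u + w) = ⟨u, hu⟩ := by
      rw [map_add, hπ' w hw, add_zero]
      exact hπ ⟨u, hu⟩
    have h2 : π (y (u + w)) = ⟨y u, hstab y hy u hu⟩ := by
      rw [map_add, map_add, hπ' _ hyw, add_zero]
      exact hπ ⟨y u, hstab y hy u hu⟩
    change ((Ψ (π (y (u + w))) : X.U j) : Fin n → ℝ) = y ((Ψ (π (u + w)) : X.U j) : Fin n → ℝ)
    rw [h1, h2]
    exact (hΨ y hy ⟨u, hu⟩ ⟨y u, hstab y hy u hu⟩ rfl).symm
  let MP : Matrix (Fin n) (Fin n) ℝ := LinearMap.toMatrix' P
  have hMP : ∀ v a, P v a = ∑ b, MP a b * v b := by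
    intro v a
    have h1 : P = Matrix.toLin' MP := (Matrix.toLin'_toMatrix' P).symm
    conv_lhs => rw [h1]
    rw [Matrix.toLin'_apply]
    rfl
  have hmem : MP.map (fun q : ℝ => (q : ℂ)) ∈ Submodule.span ℂ
      ((fun Q : Matrix (Fin n) (Fin n) ℚ => Q.map (fun q : ℚ => (q : ℂ))) ''
        {Q | X.HodgeEnd Q}) := by
    refine hE _ fun x hx => ?_
    have h1 : P * opR x = opR x * P := LinearMap.ext fun v => hcomm _ (lie_mem X x hx) v
    have h2 := congrArg LinearMap.toMatrix' h1
    rw [LinearMap.toMatrix'_mul, LinearMap.toMatrix'_mul] at h2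
    have h3 : LinearMap.toMatrix' (opR x) = x.map (fun q : ℚ => (q : ℝ)) :=
      LinearMap.toMatrix'_toLin' _
    rw [h3] at h2
    have h4 := congrArg (fun M : Matrix (Fin n) (Fin n) ℝ => M.map (Complex.ofRealHom : ℝ →+* ℂ)) h2
    simp only [Matrix.map_mul] at h4
    have h5 : (x.map (fun q : ℚ => (q : ℝ))).map (Complex.ofRealHom : ℝ →+* ℂ) =
        x.map (fun q : ℚ => (q : ℂ)) := by
      ext a b
      simp
    rw [h5] at h4
    exact h4
  have hblock : ∀ M ∈ Submodule.span ℂ
      ((fun Q : Matrix (Fin n) (Fin n) ℚ => Q.map (fun q : ℚ => (q : ℂ))) ''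
        {Q | X.HodgeEnd Q}), ∀ a b, X.c a ≠ X.c b → M a b = 0 := by
    intro M hM'
    induction hM' using Submodule.span_induction with
    | mem M h =>
      obtain ⟨Q, hQ, rfl⟩ := h
      intro a b hab
      change ((Q a b : ℚ) : ℂ) = 0
      rw [(hM Q hQ).2 a b hab, Rat.cast_zero]
    | zero => intro a b _; rfl
    | add M M' _ _ h h' =>
      intro a b hab
      rw [Matrix.add_apply, h a b hab, h' a b hab, add_zero]
    | smul z M _ h =>
      intro a b hab
      rw [Matrix.smul_apply, h a b hab, smul_zero]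
  have hMP0 : ∀ a b, X.c a ≠ X.c b → MP a b = 0 := by
    intro a b hab
    have h1 := hblock _ hmem a b hab
    rw [Matrix.map_apply] at h1
    exact_mod_cast h1
  refine LinearMap.ext fun u => ?_
  have h1 : P (u : Fin n → ℝ) = ((Ψ u : X.U j) : Fin n → ℝ) := by
    change ((Ψ (π (u : Fin n → ℝ)) : X.U j) : Fin n → ℝ) = _
    rw [hπ u]
  refine Subtype.ext ?_
  rw [← h1]
  funext a
  change P (u : Fin n → ℝ) a = 0
  by_cases ha : X.c a = i
  · rw [h1]
    exact (Ψ u).2.1 a (by rw [ha]; exact hij)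
  · rw [hMP]
    refine Finset.sum_eq_zero fun b _ => ?_
    by_cases hb : X.c b = i
    · rw [hMP0 a b (by rw [hb]; exact ha), zero_mul]
    · rw [u.2.1 b hb, mul_zero]

end

end Pool.Agent.W417.K3.Ind2
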